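import Mathlib
import Pool.Agent.V11102.Wide.Seq
import Pool.Agent.V11102.Wide.Ops

/-!
Every bounded closed convex set that is not weakly compact contains a nonempty closed convex subset
carrying a fixed-point-free uniformly Lipschitz affine self-map.
-/

set_option autoImplicit false

namespace Pool.Agent.Results.MP_f650bf_an.AffineFixedPointFree

open Set Pool.Agent.V11102.Wide

/-- `f` is an affine self-map of the convex set `K`. -/
def IsAffine {X : Type*} [NormedAddCommGroup X] [NormedSpace ℝ X] {K : Set X} (f : K → K) : Prop :=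
  ∀ (x y z : K) (t : ℝ), 0 ≤ t → t ≤ 1 → (z : X) = t • (x : X) + (1 - t) • (y : X) →
    (f z : X) = t • (f x : X) + (1 - t) • (f y : X)

/-- `f` is uniformly Lipschitz: all its iterates are Lipschitz with one constant. -/
def IsUniformlyLipschitz {X : Type*} [NormedAddCommGroup X] {K : Set X} (f : K → K) : Prop :=
  ∃ L : ℝ, 0 < L ∧ ∀ (x y : K) (p : ℕ), ‖(f^[p] x : X) - (f^[p] y : X)‖ ≤ L * ‖(x : X) - (y : X)‖

section
variable {X : Type*} [NormedAddCommGroup X] [NormedSpace ℝ X]

theorem dyadic_mem {K : Set X} (hK : Convex ℝ K) {w : ℕ → X} (hw : ∀ n, w n ∈ K) (n : ℕ) :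
    ∀ v ∈ K, ∑ m ∈ Finset.range n, (1 / 2 : ℝ) ^ (m + 1) • w m + (1 / 2 : ℝ) ^ n • v ∈ K := by
  induction n with
  | zero => intro v hv; simpa using hv
  | succ n ih =>
    intro v hv
    have h1 := ih ((1 / 2 : ℝ) • w n + (1 / 2 : ℝ) • v)
      (hK (hw n) hv (by norm_num) (by norm_num) (by norm_num))
    have h2 : ∑ m ∈ Finset.range n, (1 / 2 : ℝ) ^ (m + 1) • w m +
        (1 / 2 : ℝ) ^ n • ((1 / 2 : ℝ) • w n + (1 / 2 : ℝ) • v) =
        ∑ m ∈ Finset.range (n + 1), (1 / 2 : ℝ) ^ (m + 1) • w m + (1 / 2 : ℝ) ^ (n + 1) • v := by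
      rw [Finset.sum_range_succ, smul_add, smul_smul, smul_smul, ← pow_succ, add_assoc]
    rw [← h2]
    exact h1

theorem tsum_mem {K : Set X} (hK : Convex ℝ K) (hcl : IsClosed K) {w : ℕ → X}
    (hw : ∀ n, w n ∈ K) (hs : Summable fun m => (1 / 2 : ℝ) ^ (m + 1) • w m) :
    ∑' m, (1 / 2 : ℝ) ^ (m + 1) • w m ∈ K := by
  have h1 := hs.hasSum.tendsto_sum_nat
  have h2 : Filter.Tendsto (fun n : ℕ => (1 / 2 : ℝ) ^ n • w 0) Filter.atTop (nhds 0) := by
    have := (tendsto_pow_atTop_nhds_zero_of_lt_one (r := (1 / 2 : ℝ)) (by norm_num)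
      (by norm_num)).smul_const (w 0)
    rwa [zero_smul] at this
  have h3 := h1.add h2
  rw [add_zero] at h3
  exact hcl.mem_of_tendsto h3 (Filter.Eventually.of_forall fun n => dyadic_mem hK hw n _ (hw 0))

theorem hasSum_half (R : ℝ) : HasSum (fun m : ℕ => (1 / 2 : ℝ) ^ (m + 1) * R) R := by
  have h := hasSum_geometric_two.mul_right (R / 2)
  have h1 : (fun m : ℕ => (1 / 2 : ℝ) ^ m * (R / 2)) = fun m => (1 / 2 : ℝ) ^ (m + 1) * R := by
    funext m
    rw [pow_succ]; ring
  have h2 : 2 * (R / 2) = R := by ring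
  rwa [h1, h2] at h

end

/-- Non-compactness in the weak topology over `𝕜` gives non-compactness over `ℝ`. -/
theorem weak_real {𝕜 X : Type*} [RCLike 𝕜] [NormedAddCommGroup X] [NormedSpace ℝ X]
    [NormedSpace 𝕜 X] [IsScalarTower ℝ 𝕜 X] {C : Set X}
    (h : IsCompact (toWeakSpace ℝ X '' C)) : IsCompact (toWeakSpace 𝕜 X '' C) := by
  have hcont : Continuous (fun x : WeakSpace ℝ X =>
      (toWeakSpace 𝕜 X ((toWeakSpace ℝ X).symm x) : WeakSpace 𝕜 X)) := by
    apply WeakBilin.continuous_of_continuous_eval
    intro y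
    let re : StrongDual ℝ X := RCLike.reCLM.comp (y.restrictScalars ℝ)
    let im : StrongDual ℝ X := RCLike.imCLM.comp (y.restrictScalars ℝ)
    have h1 : Continuous fun x : WeakSpace ℝ X => re ((toWeakSpace ℝ X).symm x) :=
      WeakBilin.eval_continuous (topDualPairing ℝ X).flip re
    have h2 : Continuous fun x : WeakSpace ℝ X => im ((toWeakSpace ℝ X).symm x) :=
      WeakBilin.eval_continuous (topDualPairing ℝ X).flip im
    have h3 : Continuous fun x : WeakSpace ℝ X =>
        ((re ((toWeakSpace ℝ X).symm x) : ℝ) : 𝕜) +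
          ((im ((toWeakSpace ℝ X).symm x) : ℝ) : 𝕜) * RCLike.I :=
      (RCLike.continuous_ofReal.comp h1).add ((RCLike.continuous_ofReal.comp h2).mul
        continuous_const)
    refine h3.congr fun x => ?_
    exact RCLike.re_add_im (y ((toWeakSpace ℝ X).symm x))
  have h1 := h.image hcont
  rw [Set.image_image] at h1
  simpa using h1

/-- If `C` is a bounded closed convex subset of a (real or complex) Banach space `X` and `C` is not
weakly compact, then there are a nonempty bounded closed convex `K ⊆ C` and a uniformly Lipschitz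
affine map `f : K → K` without a fixed point. -/
theorem result {𝕜 X : Type*} [RCLike 𝕜] [NormedAddCommGroup X] [NormedSpace ℝ X]
    [NormedSpace 𝕜 X] [IsScalarTower ℝ 𝕜 X] [CompleteSpace X] (C : Set X)
    (hb : Bornology.IsBounded C) (hcl : IsClosed C) (hconv : Convex ℝ C)
    (hnw : ¬ IsCompact (toWeakSpace 𝕜 X '' C)) :
    ∃ K : Set X, K ⊆ C ∧ K.Nonempty ∧ Bornology.IsBounded K ∧ IsClosed K ∧ Convex ℝ K ∧
      ∃ f : K → K, IsAffine f ∧ IsUniformlyLipschitz f ∧ ∀ x : K, f x ≠ x := by
  obtain ⟨M, hM⟩ := isBounded_iff_forall_norm_le.mp hb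
  obtain ⟨x, hxC, D, hD, hx⟩ := exists_wide hM hcl hconv (fun h => hnw (weak_real h))
  have hw : IsWide x D := ⟨hD, fun t N m h => (hx t N m h).1, fun t N m h => (hx t N m h).2⟩
  choose e he using fun i => hw.coord i
  obtain ⟨s, hs⟩ := hw.total
  have hxM : ∀ n, ‖x n‖ ≤ M := fun n => hM _ (hxC n)
  have hM0 : 0 ≤ M := (norm_nonneg _).trans (hxM 0)
  set B : ℝ := 2 * D * M + 1 + D with hB
  have hB0 : 0 < B := by positivity
  -- the set
  set K : Set X := closure (convexHull ℝ (range x)) with hK
  have hKcl : IsClosed K := isClosed_closure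
  have hKconv : Convex ℝ K := (convex_convexHull ℝ _).closure
  have hKC : K ⊆ C := closure_minimal (convexHull_min (by rintro _ ⟨n, rfl⟩; exact hxC n) hconv) hcl
  have hKY : ∀ z ∈ K, z ∈ closure (Submodule.span ℝ (range x) : Set X) :=
    fun z hz => closure_mono (convexHull_min Submodule.subset_span (Submodule.convex _)) hz
  have hKQ : ∀ m, ∀ z ∈ K, Q x e m z ∈ K := by
    intro m
    have h1 : MapsTo (Q x e m) (convexHull ℝ (range x)) (convexHull ℝ (range x)) := by
      have h2 : convexHull ℝ (range x) ⊆ (Q x e m) ⁻¹' (convexHull ℝ (range x)) := by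
        apply convexHull_min
        · rintro _ ⟨n, rfl⟩
          show Q x e m (x n) ∈ convexHull ℝ (range x)
          rw [Q_apply_x he]
          exact subset_convexHull ℝ _ ⟨_, rfl⟩
        · exact (convex_convexHull ℝ _).linear_preimage (Q x e m).toLinearMap
      exact h2
    exact h1.closure (Q x e m).continuous
  have hYsub : ∀ {y z : X}, y ∈ K → z ∈ K →
      y - z ∈ closure (Submodule.span ℝ (range x) : Set X) := by
    intro y z hy hz
    have : y - z ∈ (Submodule.span ℝ (range x)).topologicalClosure :=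
      Submodule.sub_mem _ (hKY y hy) (hKY z hz)
    exact this
  -- summability
  have hsum : ∀ z ∈ closure (Submodule.span ℝ (range x) : Set X),
      Summable fun m => (1 / 2 : ℝ) ^ (m + 1) • Q x e m z := by
    intro z hz
    apply Summable.of_norm_bounded (hasSum_half (B * ‖z‖)).summable
    intro m
    rw [norm_smul, Real.norm_eq_abs, abs_of_nonneg (by positivity)]
    exact mul_le_mul_of_nonneg_left (Q_bound he hw hxM m hz) (by positivity)
  let F : X → X := fun z => ∑' m, (1 / 2 : ℝ) ^ (m + 1) • Q x e m z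
  have hFK : ∀ z ∈ K, F z ∈ K := fun z hz =>
    tsum_mem hKconv hKcl (fun m => hKQ m z hz) (hsum z (hKY z hz))
  let f : K → K := fun z => ⟨F z, hFK z z.2⟩
  refine ⟨K, hKC, ?_, hb.subset hKC, hKcl, hKconv, f, ?_, ?_, ?_⟩
  · exact ⟨x 0, subset_closure (subset_convexHull ℝ _ ⟨0, rfl⟩)⟩
  · -- affine
    intro y z w t ht0 ht1 hw'
    show F w = t • F y + (1 - t) • F z
    have h1 := (hsum y (hKY y y.2)).hasSum.const_smul t
    have h2 := (hsum z (hKY z z.2)).hasSum.const_smul (1 - t)
    have h3 := h1.add h2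
    have h4 : (fun m => (1 / 2 : ℝ) ^ (m + 1) • Q x e m w) = fun m =>
        t • ((1 / 2 : ℝ) ^ (m + 1) • Q x e m y) + (1 - t) • ((1 / 2 : ℝ) ^ (m + 1) • Q x e m z) := by
      funext m
      rw [hw', map_add, map_smul, map_smul, smul_add, smul_comm, smul_comm (1 - t)]
    show ∑' m, (1 / 2 : ℝ) ^ (m + 1) • Q x e m w = _
    rw [h4]
    exact h3.tsum_eq
  · -- uniformly Lipschitz
    refine ⟨B, hB0, ?_⟩
    intro y z p
    have key : ∀ p m, ‖Q x e m ((f^[p] y : X) - (f^[p] z : X))‖ ≤ B * ‖(y : X) - (z : X)‖ := by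
      intro p
      induction p with
      | zero =>
        intro m
        exact Q_bound he hw hxM m (hYsub y.2 z.2)
      | succ p ih =>
        intro m
        rw [Function.iterate_succ_apply', Function.iterate_succ_apply']
        set a := f^[p] y
        set b := f^[p] z
        have hab := hYsub a.2 b.2
        have h1 : (f a : X) - (f b : X) = ∑' k, (1 / 2 : ℝ) ^ (k + 1) • Q x e k ((a : X) - b) := by
          have h2 := ((hsum a (hKY a a.2)).hasSum.sub (hsum b (hKY b b.2)).hasSum).tsum_eq
          show F a - F b = _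
          rw [← h2]
          congr 1
          funext k
          rw [map_sub, smul_sub]
        rw [h1, (Q x e m).map_tsum (hsum _ hab)]
        apply tsum_of_norm_bounded (hasSum_half (B * ‖(y : X) - (z : X)‖))
        intro k
        rw [map_smul, Q_comp he m k hab, norm_smul, Real.norm_eq_abs,
          abs_of_nonneg (by positivity)]
        exact mul_le_mul_of_nonneg_left (ih (max m k)) (by positivity)
    have h1 := key p 0
    have h2 : Q x e 0 ((f^[p] y : X) - (f^[p] z : X)) = (f^[p] y : X) - (f^[p] z : X) := by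
      unfold Q
      simp
    rwa [h2] at h1
  · -- no fixed points
    intro z hz
    have hz' : F z = z := congrArg Subtype.val hz
    have hzY := hKY z z.2
    have hcoord : ∀ i, e i z = 0 := by
      intro i
      induction i using Nat.strong_induction_on with
      | _ i ih =>
        have h1 : e i (F z) = (1 - (1 / 2 : ℝ) ^ (i + 1)) * e i z := by
          show e i (∑' m, (1 / 2 : ℝ) ^ (m + 1) • Q x e m z) = _
          rw [(e i).map_tsum (hsum _ hzY)]
          have h2 : (fun m => e i ((1 / 2 : ℝ) ^ (m + 1) • Q x e m z)) =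
              fun m => (1 / 2 : ℝ) ^ (m + 1) * (if m ≤ i then e i z else 0) := by
            funext m
            rw [map_smul, smul_eq_mul, eQ he i m hzY ih]
          rw [h2, tsum_eq_sum (s := Finset.range (i + 1))]
          · have h3 : ∑ m ∈ Finset.range (i + 1), (1 / 2 : ℝ) ^ (m + 1) *
                (if m ≤ i then e i z else 0) =
                (∑ m ∈ Finset.range (i + 1), (1 / 2 : ℝ) ^ (m + 1)) * e i z := by
              rw [Finset.sum_mul]
              apply Finset.sum_congr rfl
              intro m hm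
              rw [if_pos (Nat.lt_succ_iff.mp (Finset.mem_range.mp hm))]
            have h4 : ∀ k : ℕ, ∑ m ∈ Finset.range k, (1 / 2 : ℝ) ^ (m + 1) = 1 - (1 / 2) ^ k := by
              intro k
              induction k with
              | zero => simp
              | succ k ih => rw [Finset.sum_range_succ, ih, pow_succ]; ring
            rw [h3, h4]
          · intro m hm
            rw [if_neg (by rw [Finset.mem_range] at hm; omega), mul_zero]
        rw [hz'] at h1
        have h2 : (0 : ℝ) < (1 / 2) ^ (i + 1) := by positivity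
        have h3 : (1 / 2 : ℝ) ^ (i + 1) * e i z = 0 := by linarith
        exact (mul_eq_zero.mp h3).resolve_left h2.ne'
    have hz0 : (z : X) = 0 := eq_zero_of_coord he hw hzY hcoord
    have hs1 : s z = 1 := by
      have h1 : K ⊆ {w | s w = 1} := by
        apply closure_minimal
        · apply convexHull_min
          · rintro _ ⟨n, rfl⟩
            exact hs n
          · exact (convex_singleton (1 : ℝ)).linear_preimage s.toLinearMap
        · exact isClosed_eq s.continuous continuous_const
      exact h1 z.2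
    rw [hz0, map_zero] at hs1
    exact zero_ne_one hs1

end Pool.Agent.Results.MP_f650bf_an.AffineFixedPointFree
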